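import Pool.Agent.helper65.HC.Ball

/-!
# A bound for dense sets, sharp for the complement of a subcube of codimension two

`V d` is `Fin d → Bool`; `cube d` joins two strings at Hamming distance one; `sub U` is the
subgraph induced on `U`; `IsEig U t` says that `t` is an eigenvalue of its adjacency matrix;
`IsTop U t` that it is the largest one; `lam d m` is the maximum of the largest eigenvalue over
all sets of `m` vertices.
-/

namespace Pool.Agent.Results.MP_d9e35a_co.DenseSets

open Pool.Agent.helper65.HC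

/-- the square root in the bound for dense sets -/
noncomputable def excess (b : ℝ) : ℝ := √(9 - 8 * b + 16 * b ^ 2) / 2

/-- the bound for dense sets -/
def Bound : Prop := ∀ (d : ℕ) (U : Finset (V d)) (t : ℝ), IsEig U t →
  ∀ b : ℝ, (U.card : ℝ) = (1 - b) * 2 ^ d → 0 ≤ b → b ≤ 1 / 2 →
    t ≤ d - 3 / 2 - 2 * b + excess b

theorem result : Bound ∧ ∀ d : ℕ, 2 ≤ d → lam d (3 * 2 ^ (d - 2)) = d - 2 + √2 ∧
    IsGreatest {t | ∃ U : Finset (V d), U.card = 3 * 2 ^ (d - 2) ∧ IsTop U t}
      (lam d (3 * 2 ^ (d - 2))) := by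
  refine ⟨fun _ _ _ h b hb hb0 hb1 => upper_dense h b hb hb0 hb1, fun d hd => ⟨lam_34 d hd, ?_⟩⟩
  refine lam_isGreatest d _ ?_ ?_
  · have : 1 ≤ 2 ^ (d - 2) := Nat.one_le_two_pow
    omega
  · obtain ⟨n, rfl⟩ := Nat.exists_eq_add_of_le hd
    rw [show 2 + n - 2 = n by omega, pow_add]
    have : 0 < 2 ^ n := by positivity
    omega

end Pool.Agent.Results.MP_d9e35a_co.DenseSets
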