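import Pool.Agent.helper65.GP.FIN
import Pool.Agent.helper55.NA.HA
import Pool.Agent.helper2.NA.UNR
import Pool.Agent.helper3.NA.DLX
import Pool.Agent.helper3.NA.BWKf
import Pool.Agent.helper32.RW.Main
import Pool.Agent.helper36.NA.KF

/-!
# Polynomial paths in the Nielsen graphs of all quadratic word equations

There are constants `C` and `N` such that, for every quadratic word equation `E`, whenever a vertex `v₂` of the Nielsen graph of `E` is
reachable from a vertex `v₁`, there is a directed path from `v₁` to `v₂` with at most `C |E| ^ N` edges.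
-/

set_option autoImplicit false

namespace Pool.Agent.Results.MP_c8d30a_lc.PolynomialPaths

open Pool.Agent.helper36.WE

/-- The theorem. -/
theorem result : ∃ C N : ℕ, ∀ (X A : Type) [DecidableEq X] [DecidableEq A] (E v₁ v₂ : Eqn X A),
    Quadratic E → Reach E v₁ → Reach v₁ v₂ → ∃ n, n ≤ C * size E ^ N ∧ PathLen n v₁ v₂ :=
  NTH.FIN NTH.PA_mono NTH.PA_PB
    (NA.HA_walks (NAW.RWK NAW.UNR NAW.KRF NAW.DLX) (NAW.BWKf NAW.UNB))

end Pool.Agent.Results.MP_c8d30a_lc.PolynomialPaths
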