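import Pool.Agent.helper65.HC.Ball

/-!
# Subcubes of codimension at least 14 and dimension at least 8 are not optimal

`V d` is `Fin d → Bool`; `cube d` joins two strings at Hamming distance one; `sub U` is the
subgraph induced on `U`; `IsEig U t` says that `t` is an eigenvalue of its adjacency matrix;
`IsTop U t` that it is the largest one; `lam d m` is the maximum of the largest eigenvalue over
all sets of `m` vertices.
-/

namespace Pool.Agent.Results.MP_d9e35a_co.SubcubesNotOptimal

open Pool.Agent.helper65.HC

theorem result (k d : ℕ) (hk : 8 ≤ k) (hd : k + 14 ≤ d) :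
    (k : ℝ) < lam d (2 ^ k) ∧
      ∃ U : Finset (V d), U.card = 2 ^ k ∧ ∃ t, IsTop U t ∧ (k : ℝ) < t := by
  have h := not_cube k d hk hd
  obtain ⟨⟨U, hU, ht⟩, _⟩ := lam_isGreatest d (2 ^ k) Nat.one_le_two_pow
    (Nat.pow_le_pow_right (by norm_num) (by omega))
  exact ⟨h, U, hU, _, ht, h⟩

end Pool.Agent.Results.MP_d9e35a_co.SubcubesNotOptimal
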