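import Pool.Agent.helper65.HC.Ball

/-!
# Subcubes of codimension two and three are optimal

`V d` is `Fin d → Bool`; `cube d` joins two strings at Hamming distance one; `sub U` is the
subgraph induced on `U`; `IsEig U t` says that `t` is an eigenvalue of its adjacency matrix;
`IsTop U t` that it is the largest one; `lam d m` is the maximum of the largest eigenvalue over
all sets of `m` vertices.
-/

namespace Pool.Agent.Results.MP_d9e35a_co.SubcubesOptimal

open Pool.Agent.helper65.HC

/-- For `j ≤ 3` every eigenvalue `t` of `Q_d[U]` is at most `d - j - 1 + 2 ^ j * |U| / 2 ^ d`, and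
this is attained by the subcubes of codimension `j`: `λ_d(2^(d-j)) = d - j`, which is a maximum. -/
theorem result (j : ℕ) (hj : j ≤ 3) (d : ℕ) :
    (∀ (U : Finset (V d)) (t : ℝ), IsEig U t → t ≤ d - j - 1 + 2 ^ j * (U.card / 2 ^ d)) ∧
    (j ≤ d → lam d (2 ^ (d - j)) = d - j ∧
      IsGreatest {t | ∃ U : Finset (V d), U.card = 2 ^ (d - j) ∧ IsTop U t}
        (lam d (2 ^ (d - j)))) := by
  have hb : ∀ (U : Finset (V d)) (t : ℝ), IsEig U t → t ≤ d - j - 1 + 2 ^ j * (U.card / 2 ^ d) := by
    intro U t h
    obtain ⟨h1, h2, h3⟩ := upper h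
    have hc : (U.card : ℝ) / 2 ^ d ≤ 1 := by
      rw [div_le_one (by positivity)]
      have : U.card ≤ 2 ^ d := by simpa using Finset.card_le_univ U
      exact_mod_cast this
    interval_cases j <;> norm_num <;> linarith
  refine ⟨hb, fun hjd => ⟨?_, lam_isGreatest d _ Nat.one_le_two_pow
    (Nat.pow_le_pow_right (by norm_num) (Nat.sub_le _ _))⟩⟩
  refine lam_eq ?_ ?_
  · have := ED.cube d (d - j) (by omega)
    rwa [Nat.cast_sub hjd] at this
  · intro U hU t ht
    have h := hb U t ht
    rw [hU] at h
    have e : (2 : ℝ) ^ j * (((2 ^ (d - j) : ℕ) : ℝ) / 2 ^ d) = 1 := by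
      obtain ⟨n, rfl⟩ := Nat.exists_eq_add_of_le hjd
      rw [show j + n - j = n by omega, pow_add]; push_cast
      field_simp
    rw [e] at h; linarith

end Pool.Agent.Results.MP_d9e35a_co.SubcubesOptimal
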