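import Pool.Agent.helper65.WB.Lcs

set_option autoImplicit false

/-!
# MP_07c750_an: the low-complexity parts of the quantum limits of the Walsh-quantised baker map

Let `S` be a union of countably many sets of digit sequences, each of complexity `o(D ^ (n/2))`
(for example the periodic sequences, or a subshift of entropy less than half of the maximum),
mapped to itself by the shift and by `x ↦ -x`.  A measure `η` is the restriction to `S` of some
quantum limit of the Walsh-quantised baker map if and only if it is carried by `S`, invariant under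
the shift and the parity, and has mass at most `1/2`.
-/

namespace Pool.Agent.Results.MP_07c750_an.WalshLowComplexity

open Pool.Agent.helper65.WB MeasureTheory Filter

theorem result {D : ℕ} [NeZero D] (S : ℕ → Set (ℕ → Fin D))
    (hS : ∀ k, MeasurableSet (S k) ∧
      Tendsto (fun n : ℕ => (complexity (S k) n : ℝ) / (Real.sqrt D) ^ n) atTop (nhds 0))
    (hshift : ∀ x ∈ ⋃ k, S k, (fun t => x (t + 1)) ∈ ⋃ k, S k)
    (hpar : ∀ x ∈ ⋃ k, S k, (fun t => -x t) ∈ ⋃ k, S k) (η : Measure (ℕ → Fin D)) :
    (∃ ν : Measure (ℕ → Fin D), IsProbabilityMeasure ν ∧ IsQuantumLimit (fou D) ν ∧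
      η = ν.restrict (⋃ k, S k)) ↔
    (η (⋃ k, S k)ᶜ = 0 ∧ η.map (fun x t => x (t + 1)) = η ∧ η.map (fun x t => -x t) = η ∧
      η Set.univ ≤ 1 / 2) :=
  low_parts S hS hshift hpar η

end Pool.Agent.Results.MP_07c750_an.WalshLowComplexity
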